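import Mathlib
import Pool.Agent.Helper635.LLL

set_option autoImplicit false

/-!
# Balanced partitions by the local lemma
-/

namespace Pool.Agent.H238R2.HY

open Finset Pool.Agent.Helper635.LLL Classical

/-- Chernoff bound, counting form -/
theorem chernoff {V : Type} [Fintype V] (K : ℕ) (hK : 1 ≤ K) (S : Finset V) (y : Fin K)
    (x : ℝ) (hx : 0 ≤ x) (m : ℕ) :
    (cnt (fun ω : V → Fin K => m ≤ (S.filter (fun u => ω u = y)).card) : ℝ) * (1 + x) ^ m ≤
      Real.exp (x * S.card / K) * Fintype.card (V → Fin K) := by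
  classical
  have hKpos : (0 : ℝ) < K := by exact_mod_cast hK
  -- moment generating function
  have h1 : (cnt (fun ω : V → Fin K => m ≤ (S.filter (fun u => ω u = y)).card) : ℝ) * (1 + x) ^ m ≤
      ∑ ω : V → Fin K, ∏ u : V, (if u ∈ S ∧ ω u = y then (1 + x) else 1) := by
    have e1 : ∀ ω : V → Fin K, ∏ u : V, (if u ∈ S ∧ ω u = y then (1 + x) else (1 : ℝ)) =
        (1 + x) ^ (S.filter (fun u => ω u = y)).card := by
      intro ω
      rw [Finset.prod_ite, Finset.prod_const, Finset.prod_const_one, mul_one]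
      congr 2
      ext u; simp
    simp only [e1]
    rw [cnt, Finset.card_eq_sum_ones, Nat.cast_sum, Finset.sum_mul]
    refine (Finset.sum_le_sum (f := fun _ => ((1 : ℕ) : ℝ) * (1 + x) ^ m)
      (g := fun ω => (1 + x) ^ (S.filter (fun u => ω u = y)).card) ?_).trans ?_
    · intro ω hω
      rw [mem_ev] at hω
      rw [Nat.cast_one, one_mul]
      exact pow_le_pow_right₀ (by linarith) hω
    · refine Finset.sum_le_sum_of_subset_of_nonneg (Finset.subset_univ _) ?_
      intro ω _ _
      positivity
  refine h1.trans ?_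
  have h2 : ∑ ω : V → Fin K, ∏ u : V, (if u ∈ S ∧ ω u = y then (1 + x) else (1 : ℝ)) =
      ∏ u : V, ∑ c : Fin K, (if u ∈ S ∧ c = y then (1 + x) else (1 : ℝ)) := by
    rw [Finset.prod_univ_sum]
    rfl
  rw [h2]
  have h3 : ∀ u : V, ∑ c : Fin K, (if u ∈ S ∧ c = y then (1 + x) else (1 : ℝ)) =
      if u ∈ S then (K + x) else (K : ℝ) := by
    intro u
    by_cases hu : u ∈ S
    · simp only [hu, true_and, if_true]
      have : ∀ c : Fin K, (if c = y then (1 + x) else (1 : ℝ)) = 1 + (if c = y then x else 0) := by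
        intro c; split_ifs <;> ring
      simp only [this]
      rw [Finset.sum_add_distrib, Finset.sum_ite_eq' univ y]
      simp
    · simp [hu]
  simp only [h3]
  rw [Finset.prod_ite, Finset.prod_const, Finset.prod_const]
  have h4 : (univ.filter (fun u => u ∈ S)) = S := by ext u; simp
  have h5 : (univ.filter (fun u => u ∉ S)).card = Fintype.card V - S.card := by
    have : (univ.filter (fun u => u ∉ S)) = Sᶜ := by ext u; simp
    rw [this, Finset.card_compl]
  rw [h4, h5, Fintype.card_fun, Fintype.card_fin]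
  have hle : S.card ≤ Fintype.card V := Finset.card_le_univ _
  have h6 : ((K : ℝ) + x) ^ S.card ≤ Real.exp (x * S.card / K) * (K : ℝ) ^ S.card := by
    have h7 : (K : ℝ) + x = K * (1 + x / K) := by field_simp
    rw [h7, mul_pow, mul_comm]
    refine mul_le_mul_of_nonneg_right ?_ (by positivity)
    have h8 : 1 + x / K ≤ Real.exp (x / K) := by
      have := Real.add_one_le_exp (x / K); linarith
    calc (1 + x / K) ^ S.card ≤ (Real.exp (x / K)) ^ S.card :=
          pow_le_pow_left₀ (by positivity) h8 _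
      _ = Real.exp (x * S.card / K) := by
          rw [← Real.exp_nat_mul]; congr 1; ring
  push_cast
  calc ((K : ℝ) + x) ^ S.card * (K : ℝ) ^ (Fintype.card V - S.card)
      ≤ (Real.exp (x * S.card / K) * (K : ℝ) ^ S.card) * (K : ℝ) ^ (Fintype.card V - S.card) :=
        mul_le_mul_of_nonneg_right h6 (by positivity)
    _ = Real.exp (x * S.card / K) * (K : ℝ) ^ Fintype.card V := by
        rw [mul_assoc, ← pow_add, Nat.add_sub_cancel' hle]

/-- the entropy inequality behind the Chernoff bound -/
theorem entropy {x : ℝ} (hx : 0 ≤ x) (hx1 : x ≤ 1) :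
    x ^ 2 / 3 ≤ (1 + x) * Real.log (1 + x) - x := by
  have h := Real.le_log_one_add_of_nonneg hx
  have h1 : (1 + x) * (2 * x / (x + 2)) ≤ (1 + x) * Real.log (1 + x) :=
    mul_le_mul_of_nonneg_left h (by linarith)
  have h2 : (1 + x) * (2 * x / (x + 2)) - x = x ^ 2 / (x + 2) := by
    field_simp; ring
  have h3 : x ^ 2 / 3 ≤ x ^ 2 / (x + 2) := by
    apply div_le_div_of_nonneg_left (by positivity) (by linarith) (by linarith)
  linarith

/-- Chernoff bound for a large deviation of relative size `x ≤ 1` -/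
theorem tail {V : Type} [Fintype V] (K D : ℕ) (hK : 1 ≤ K) (S : Finset V) (hS : S.card ≤ D)
    (y : Fin K) (x : ℝ) (hx : 0 ≤ x) (hx1 : x ≤ 1) (m : ℕ) (hm : (1 + x) * D / K ≤ m) :
    (cnt (fun ω : V → Fin K => m ≤ (S.filter (fun u => ω u = y)).card) : ℝ) ≤
      Real.exp (-(x ^ 2 * D / (3 * K))) * Fintype.card (V → Fin K) := by
  have hKpos : (0 : ℝ) < K := by exact_mod_cast hK
  have h1 := chernoff K hK S y x hx m
  have hpos : (0 : ℝ) < (1 + x) ^ m := by positivity
  have h2 : Real.exp (x * S.card / K) ≤ Real.exp (x * D / K) := by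
    apply Real.exp_le_exp.2
    have : (S.card : ℝ) ≤ D := by exact_mod_cast hS
    gcongr
  have h3 : Real.exp (x * D / K) ≤ Real.exp (-(x ^ 2 * D / (3 * K))) * (1 + x) ^ m := by
    have h4 : (1 + x) ^ m = Real.exp (m * Real.log (1 + x)) := by
      rw [← Real.log_pow, Real.exp_log hpos]
    rw [h4, ← Real.exp_add]
    apply Real.exp_le_exp.2
    have hlog : 0 ≤ Real.log (1 + x) := Real.log_nonneg (by linarith)
    have h5 : (1 + x) * D / K * Real.log (1 + x) ≤ m * Real.log (1 + x) :=
      mul_le_mul_of_nonneg_right hm hlog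
    have h6 := entropy hx hx1
    have h7 : (x ^ 2 / 3) * (D / K) ≤ ((1 + x) * Real.log (1 + x) - x) * (D / K) :=
      mul_le_mul_of_nonneg_right h6 (by positivity)
    have e1 : (x ^ 2 / 3) * (D / K) = x ^ 2 * D / (3 * K) := by
      rw [div_mul_div_comm]
    have e2 : ((1 + x) * Real.log (1 + x) - x) * ((D : ℝ) / K) =
        (1 + x) * D / K * Real.log (1 + x) - x * D / K := by ring
    rw [e1, e2] at h7
    linarith
  have hN : (0 : ℝ) ≤ Fintype.card (V → Fin K) := by positivity
  have h8 : (cnt (fun ω : V → Fin K => m ≤ (S.filter (fun u => ω u = y)).card) : ℝ) * (1 + x) ^ m ≤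
      (Real.exp (-(x ^ 2 * D / (3 * K))) * Fintype.card (V → Fin K)) * (1 + x) ^ m := by
    calc _ ≤ Real.exp (x * S.card / K) * Fintype.card (V → Fin K) := h1
      _ ≤ (Real.exp (-(x ^ 2 * D / (3 * K))) * (1 + x) ^ m) * Fintype.card (V → Fin K) :=
          mul_le_mul_of_nonneg_right (h2.trans h3) hN
      _ = _ := by ring
  exact le_of_mul_le_mul_right h8 hpos

/-- balanced partition -/
theorem partition {V : Type} [Fintype V] (G : SimpleGraph V) [DecidableRel G.Adj]
    (K D : ℕ) (hK : 1 ≤ K) (hD1 : 1 ≤ D) (hD : ∀ v, G.degree v ≤ D) (x : ℝ) (hx : 0 ≤ x)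
    (hx1 : x ≤ 1) (h4 : 4 * (K * Real.exp (-(x ^ 2 * D / (3 * K)))) * (D * D : ℕ) ≤ 1) :
    ∃ t : V → ℕ, (∀ v, t v < K) ∧
      ∀ v y, ((G.neighborFinset v).filter (fun u => t u = y)).card ≤ ⌊(1 + x) * D / K⌋₊ := by
  classical
  have : Nonempty (Fin K) := ⟨⟨0, hK⟩⟩
  have hcardpos : 0 < Fintype.card (V → Fin K) := Fintype.card_pos
  have hKpos : (0 : ℝ) < K := by exact_mod_cast hK
  set w := ⌊(1 + x) * D / K⌋₊ with hw
  have hm : (1 + x) * D / K ≤ ((w + 1 : ℕ) : ℝ) := by
    push_cast; exact (Nat.lt_floor_add_one _).le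
  obtain ⟨ω, hω⟩ := lll (ι := V) univ
    (fun v (ω : V → Fin K) => ∃ y : Fin K, w + 1 ≤ ((G.neighborFinset v).filter
      (fun u => ω u = y)).card) (fun v => G.neighborFinset v)
    (by
      intro v _ ω ω' hag hbad
      obtain ⟨y, hy⟩ := hbad
      refine ⟨y, le_trans hy (Finset.card_le_card ?_)⟩
      intro u hu
      rw [mem_filter] at hu ⊢
      exact ⟨hu.1, by rw [← hag u hu.1]; exact hu.2⟩)
    (K * Real.exp (-(x ^ 2 * D / (3 * K)))) (D * D) (by positivity)
    (by
      intro v _
      have hsub : ev (fun ω : V → Fin K => ∃ y : Fin K, w + 1 ≤ ((G.neighborFinset v).filter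
          (fun u => ω u = y)).card) ⊆
          (Finset.univ : Finset (Fin K)).biUnion
            (fun y => ev (fun ω : V → Fin K => w + 1 ≤ ((G.neighborFinset v).filter
              (fun u => ω u = y)).card)) := by
        intro ω hω
        rw [mem_ev] at hω
        obtain ⟨j, hj⟩ := hω
        rw [Finset.mem_biUnion]
        exact ⟨j, Finset.mem_univ _, mem_ev.mpr hj⟩
      have h1 := (Finset.card_le_card hsub).trans Finset.card_biUnion_le
      have h2 : (cnt (fun ω : V → Fin K => ∃ y : Fin K, w + 1 ≤ ((G.neighborFinset v).filter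
          (fun u => ω u = y)).card) : ℝ) ≤ ∑ y : Fin K,
          (cnt (fun ω : V → Fin K => w + 1 ≤ ((G.neighborFinset v).filter
              (fun u => ω u = y)).card) : ℝ) := by
        exact_mod_cast h1
      refine h2.trans ?_
      refine (Finset.sum_le_sum (fun y _ => tail K D hK (G.neighborFinset v) (by
        rw [SimpleGraph.card_neighborFinset_eq_degree]; exact hD v) y x hx hx1 (w + 1) hm)).trans ?_
      rw [Finset.sum_const, Finset.card_univ, Fintype.card_fin, nsmul_eq_mul]
      exact le_of_eq (by ring))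
    (by
      intro v _
      have hsub : univ.filter (fun j => ¬ Disjoint (G.neighborFinset v) (G.neighborFinset j)) ⊆
          (G.neighborFinset v).biUnion (fun u => G.neighborFinset u) := by
        intro j hj
        rw [mem_filter, Finset.not_disjoint_iff] at hj
        obtain ⟨u, hu1, hu2⟩ := hj.2
        rw [mem_biUnion]
        refine ⟨u, hu1, ?_⟩
        rw [SimpleGraph.mem_neighborFinset] at hu2 ⊢
        exact hu2.symm
      refine (Finset.card_le_card hsub).trans (Finset.card_biUnion_le.trans ?_)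
      have hs : ∑ u ∈ G.neighborFinset v, (G.neighborFinset u).card ≤
          ∑ _u ∈ G.neighborFinset v, D :=
        Finset.sum_le_sum (fun u _ => by
          rw [SimpleGraph.card_neighborFinset_eq_degree]; exact hD u)
      refine hs.trans ?_
      rw [Finset.sum_const, smul_eq_mul, SimpleGraph.card_neighborFinset_eq_degree]
      exact Nat.mul_le_mul_right _ (hD v))
    (by exact_mod_cast h4) (Nat.one_le_iff_ne_zero.2 (by positivity)) hcardpos
  refine ⟨fun v => (ω v : ℕ), fun v => (ω v).2, ?_⟩
  intro v y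
  by_cases hy : y < K
  · have h1 := hω v (mem_univ v)
    push Not at h1
    have h2 := h1 ⟨y, hy⟩
    have h3 : (G.neighborFinset v).filter (fun u => (ω u : ℕ) = y) =
        (G.neighborFinset v).filter (fun u => ω u = ⟨y, hy⟩) := by
      apply Finset.filter_congr
      intro u _
      rw [Fin.ext_iff]
    rw [h3]
    omega
  · have h3 : (G.neighborFinset v).filter (fun u => (ω u : ℕ) = y) = ∅ := by
      apply Finset.filter_eq_empty_iff.2
      intro u _ h
      exact hy (by rw [← h]; exact (ω u).2)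
    rw [h3]; simp

end Pool.Agent.H238R2.HY
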