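import Mathlib
import Pool.Agent.MPd14d18.Star

set_option autoImplicit false

/-!
# The cyclic sum construction of (p,1)-total labellings from a balanced partition
-/

namespace Pool.Agent.H238R2.HY

open Finset

variable {V : Type} [Fintype V]

/-- greedy colouring -/
theorem greedy (S : SimpleGraph V) (w : ℕ) [DecidableRel S.Adj]
    (hS : ∀ v, S.degree v ≤ w) :
    ∃ s : V → ℕ, (∀ v, s v ≤ w) ∧ ∀ u v, S.Adj u v → s u ≠ s v := by
  classical
  have key : ∀ X : Finset V, ∃ s : V → ℕ, (∀ v, s v ≤ w) ∧
      ∀ u ∈ X, ∀ v ∈ X, S.Adj u v → s u ≠ s v := by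
    intro X
    induction X using Finset.induction_on with
    | empty => exact ⟨fun _ => 0, fun _ => Nat.zero_le _, by simp⟩
    | insert x X hx ih =>
      obtain ⟨s, hs1, hs2⟩ := ih
      have hcard : ((S.neighborFinset x).image s).card < (range (w + 1)).card := by
        refine lt_of_le_of_lt Finset.card_image_le ?_
        rw [SimpleGraph.card_neighborFinset_eq_degree, card_range]
        exact Nat.lt_succ_of_le (hS x)
      obtain ⟨c, hc1, hc2⟩ := Finset.exists_mem_notMem_of_card_lt_card hcard
      rw [mem_range] at hc1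
      refine ⟨Function.update s x c, ?_, ?_⟩
      · intro v
        by_cases h : v = x
        · subst h; rw [Function.update_self]; omega
        · rw [Function.update_of_ne h]; exact hs1 v
      · intro u hu v hv huv
        rw [mem_insert] at hu hv
        by_cases hux : u = x
        · have hvx : v ≠ x := by rintro rfl; exact S.ne_of_adj huv hux
          subst hux
          rw [Function.update_self, Function.update_of_ne hvx]
          intro h
          exact hc2 (mem_image.2 ⟨v, (S.mem_neighborFinset u v).2 huv, h.symm⟩)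
        · by_cases hvx : v = x
          · subst hvx
            rw [Function.update_self, Function.update_of_ne hux]
            intro h
            exact hc2 (mem_image.2 ⟨u, (S.mem_neighborFinset v u).2 huv.symm, h⟩)
          · rw [Function.update_of_ne hux, Function.update_of_ne hvx]
            exact hs2 u (hu.resolve_left hux) v (hv.resolve_left hvx) huv
  obtain ⟨s, h1, h2⟩ := key univ
  exact ⟨s, h1, fun u v h => h2 u (mem_univ _) v (mem_univ _) h⟩

/-- Vizing's theorem with a symmetric colour function -/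
theorem vizing (Γ : SimpleGraph V) [DecidableRel Γ.Adj] (w : ℕ)
    (hdeg : ∀ v, Γ.degree v ≤ w) :
    ∃ c : V → V → ℕ, (∀ u v, c u v = c v u) ∧ (∀ u v, Γ.Adj u v → c u v ≤ w) ∧
      ∀ u v v', Γ.Adj u v → Γ.Adj u v' → v ≠ v' → c u v ≠ c u v' := by
  classical
  obtain ⟨N, hN1, hN2, hN3, hN4⟩ := Pool.Agent.MPd14d18.vizing_family Γ (range (w + 1)) w hdeg
    (by rw [card_range])
  -- every edge gets a colour
  have hex : ∀ u v, Γ.Adj u v → ∃ c ∈ range (w + 1), N c u = v := by
    intro u v huv
    set A := (range (w + 1)).filter (fun c => N c u ≠ u) with hA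
    have hcA : A.card = Γ.degree u := by
      have h1 := hN4 u
      have h2 := Finset.card_filter_add_card_filter_not (s := range (w + 1)) (fun c => N c u = u)
      have h3 : A.card = ((range (w + 1)).filter (fun c => ¬ N c u = u)).card := rfl
      omega
    have himg : A.image (fun c => N c u) = Γ.neighborFinset u := by
      apply Finset.eq_of_subset_of_card_le
      · intro x hx
        rw [mem_image] at hx
        obtain ⟨c, hc, rfl⟩ := hx
        rw [hA, mem_filter] at hc
        exact (Γ.mem_neighborFinset u _).2 (hN2 c hc.1 u hc.2)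
      · rw [SimpleGraph.card_neighborFinset_eq_degree, ← hcA]
        rw [Finset.card_image_of_injOn]
        intro c hc c' hc' h
        rw [hA, mem_coe, mem_filter] at hc hc'
        exact hN3 c hc.1 c' hc'.1 u hc.2 h
    have hv : v ∈ A.image (fun c => N c u) := by
      rw [himg]; exact (Γ.mem_neighborFinset u v).2 huv
    rw [mem_image] at hv
    obtain ⟨c, hc, h⟩ := hv
    rw [hA, mem_filter] at hc
    exact ⟨c, hc.1, h⟩
  have hiff : ∀ c u v, N c u = v ↔ N c v = u := by
    intro c u v
    constructor
    · rintro rfl; exact hN1 c u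
    · rintro rfl; exact hN1 c v
  refine ⟨fun u v => sInf {c | c ∈ range (w + 1) ∧ N c u = v}, ?_, ?_, ?_⟩
  · intro u v
    have hset : {c | c ∈ range (w + 1) ∧ N c u = v} = {c | c ∈ range (w + 1) ∧ N c v = u} := by
      ext c
      simp only [Set.mem_ofPred_eq]
      rw [hiff]
    change sInf {c | c ∈ range (w + 1) ∧ N c u = v} = sInf {c | c ∈ range (w + 1) ∧ N c v = u}
    rw [hset]
  · intro u v huv
    obtain ⟨c, hc⟩ := hex u v huv
    have h1 := Nat.sInf_mem (s := {c | c ∈ range (w + 1) ∧ N c u = v}) ⟨c, hc⟩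
    have h2 := mem_range.1 h1.1
    change sInf {c | c ∈ range (w + 1) ∧ N c u = v} ≤ w
    omega
  · intro u v v' huv huv' hne h
    obtain ⟨c, hc⟩ := hex u v huv
    obtain ⟨c', hc'⟩ := hex u v' huv'
    have h1 := Nat.sInf_mem (s := {c | c ∈ range (w + 1) ∧ N c u = v}) ⟨c, hc⟩
    have h2 := Nat.sInf_mem (s := {c | c ∈ range (w + 1) ∧ N c u = v'}) ⟨c', hc'⟩
    change sInf {c | c ∈ range (w + 1) ∧ N c u = v} =
      sInf {c | c ∈ range (w + 1) ∧ N c u = v'} at h
    rw [← h] at h2
    exact hne (h1.2.symm.trans h2.2)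

/-- `N` labels suffice for a circular `(p,1)`-total labelling of `G`. -/
def CircLab (G : SimpleGraph V) (p N : ℕ) : Prop :=
  ∃ (fV : V → ℕ) (fE : Sym2 V → ℕ),
    (∀ v, fV v < N) ∧ (∀ e ∈ G.edgeSet, fE e < N) ∧
    (∀ u v, G.Adj u v → fV u ≠ fV v) ∧
    (∀ u v w, G.Adj u v → G.Adj u w → v ≠ w → fE s(u, v) ≠ fE s(u, w)) ∧
    (∀ u v, G.Adj u v → (p : ℤ) ≤ |(fV u : ℤ) - (fE s(u, v) : ℤ)| ∧
      |(fV u : ℤ) - (fE s(u, v) : ℤ)| ≤ (N : ℤ) - p)

/-- the subgraph of edges with type sum `b` -/
def blk (G : SimpleGraph V) (t : V → ℕ) (b : ℕ) : SimpleGraph V where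
  Adj u v := G.Adj u v ∧ t u + t v = b
  symm := ⟨fun _ _ h => ⟨h.1.symm, by rw [add_comm]; exact h.2⟩⟩
  loopless := ⟨fun u h => G.loopless.irrefl u h.1⟩

/-- the subgraph of edges inside the types -/
def ins (G : SimpleGraph V) (t : V → ℕ) : SimpleGraph V where
  Adj u v := G.Adj u v ∧ t u = t v
  symm := ⟨fun _ _ h => ⟨h.1.symm, h.2.symm⟩⟩
  loopless := ⟨fun u h => G.loopless.irrefl u h.1⟩

theorem mod_cancel {N a b C : ℕ} (ha : a < N) (hb : b < N) (h : (a + C) % N = (b + C) % N) :
    a = b := by
  have h1 : a + C ≡ b + C [MOD N] := h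
  have h2 := Nat.ModEq.add_right_cancel' C h1
  exact Nat.ModEq.eq_of_lt_of_lt h2 ha hb

/-- the construction -/
theorem struct (G : SimpleGraph V) [DecidableRel G.Adj] (K w p : ℕ) (hK : 1 ≤ K) (hp : 1 ≤ p)
    (t : V → ℕ) (htK : ∀ v, t v < K)
    (hw : ∀ v y, ((G.neighborFinset v).filter (fun u => t u = y)).card ≤ w) :
    CircLab G p ((K + 1) * (w + 1) + 2 * p - 2) := by
  classical
  set W := w + 1 with hW
  set N := (K + 1) * W + 2 * p - 2 with hN
  have hW1 : 1 ≤ W := by omega
  have hKW : K * W + W + 2 * p = N + 2 := by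
    have : (K + 1) * W = K * W + W := by ring
    omega
  -- edge colourings of the blocks
  have hblk : ∀ b, ∃ c : V → V → ℕ, (∀ u v, c u v = c v u) ∧
      (∀ u v, (blk G t b).Adj u v → c u v ≤ w) ∧
      ∀ u v v', (blk G t b).Adj u v → (blk G t b).Adj u v' → v ≠ v' → c u v ≠ c u v' := by
    intro b
    apply vizing
    intro v
    rw [← SimpleGraph.card_neighborFinset_eq_degree]
    refine le_trans (Finset.card_le_card ?_) (hw v (b - t v))
    intro u hu
    rw [SimpleGraph.mem_neighborFinset] at hu
    rw [mem_filter, SimpleGraph.mem_neighborFinset]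
    exact ⟨hu.1, by have := hu.2; omega⟩
  choose c hc1 hc2 hc3 using hblk
  -- vertex colouring inside the types
  obtain ⟨s, hs1, hs2⟩ := greedy (ins G t) w (by
    intro v
    rw [← SimpleGraph.card_neighborFinset_eq_degree]
    refine le_trans (Finset.card_le_card ?_) (hw v (t v))
    intro u hu
    rw [SimpleGraph.mem_neighborFinset] at hu
    rw [mem_filter, SimpleGraph.mem_neighborFinset]
    exact ⟨hu.1, hu.2.symm⟩)
  -- the labels
  let eL : V → V → ℕ := fun u v => ((t u + t v) * W + c (t u + t v) u v) % N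
  have hsymm : ∀ u v, eL u v = eL v u := by
    intro u v
    simp only [eL]
    rw [add_comm (t v) (t u), hc1 (t u + t v) u v]
  let fV : V → ℕ := fun v => (t v * W + s v + (K * W + (p - 1))) % N
  let fE : Sym2 V → ℕ := fun e => Sym2.lift ⟨eL, hsymm⟩ e
  have hfE : ∀ u v, fE s(u, v) = eL u v := fun u v => Sym2.lift_mk _ _ _
  have hNpos : 0 < N := by
    have : 1 ≤ K * W := Nat.one_le_iff_ne_zero.2 (by positivity)
    omega
  have htW : ∀ v, t v * W + W ≤ K * W := by
    intro v
    have : (t v + 1) * W ≤ K * W := Nat.mul_le_mul_right _ (htK v)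
    linarith [this, add_mul (t v) 1 W]
  refine ⟨fV, fE, ?_, ?_, ?_, ?_, ?_⟩
  · intro v; exact Nat.mod_lt _ hNpos
  · intro e _
    induction e using Sym2.ind with
    | _ u v => rw [hfE]; exact Nat.mod_lt _ hNpos
  · intro u v huv h
    have h1 := htW u
    have h2 := htW v
    have h3 := hs1 u
    have h4 := hs1 v
    have h5 : t u * W + s u = t v * W + s v :=
      mod_cancel (by omega) (by omega) h
    have h6 : t u = t v := by
      have e1 : (t u * W + s u) / W = t u := by
        rw [add_comm, Nat.add_mul_div_right _ _ hW1, Nat.div_eq_of_lt (by omega), zero_add]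
      have e2 : (t v * W + s v) / W = t v := by
        rw [add_comm, Nat.add_mul_div_right _ _ hW1, Nat.div_eq_of_lt (by omega), zero_add]
      rw [← e1, ← e2, h5]
    have h7 : s u = s v := by rw [h6] at h5; omega
    exact hs2 u v ⟨huv, h6⟩ h7
  · intro u v v' huv huv' hne h
    rw [hfE, hfE] at h
    simp only [eL] at h
    have h1 := htW v
    have h2 := htW v'
    have h3 := hc2 (t u + t v) u v ⟨huv, rfl⟩
    have h4 := hc2 (t u + t v') u v' ⟨huv', rfl⟩
    have h5 : t v * W + c (t u + t v) u v = t v' * W + c (t u + t v') u v' := by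
      refine mod_cancel (N := N) (C := t u * W) (by omega) (by omega) ?_
      have e1 : t v * W + c (t u + t v) u v + t u * W =
          (t u + t v) * W + c (t u + t v) u v := by ring
      have e2 : t v' * W + c (t u + t v') u v' + t u * W =
          (t u + t v') * W + c (t u + t v') u v' := by ring
      rw [e1, e2]
      exact h
    have h6 : t v = t v' := by
      have e1 : (t v * W + c (t u + t v) u v) / W = t v := by
        rw [add_comm, Nat.add_mul_div_right _ _ hW1, Nat.div_eq_of_lt (by omega), zero_add]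
      have e2 : (t v' * W + c (t u + t v') u v') / W = t v' := by
        rw [add_comm, Nat.add_mul_div_right _ _ hW1, Nat.div_eq_of_lt (by omega), zero_add]
      rw [← e1, ← e2, h5]
    rw [h6] at h5
    exact hc3 (t u + t v') u v v' ⟨huv, by rw [h6]⟩ ⟨huv', rfl⟩ hne (by omega)
  · intro u v huv
    rw [hfE]
    have h1 := htW v
    have h3 := hc2 (t u + t v) u v ⟨huv, rfl⟩
    have h4 := hs1 u
    -- write both labels relative to the position of the type of `u`
    set a := t v * W + c (t u + t v) u v with ha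
    set g := K * W + (p - 1) + s u with hg
    have e1 : fV u = (t u * W + g) % N := by
      simp only [fV]; rw [hg]; congr 1; ring
    have e2 : eL u v = (t u * W + a) % N := by
      simp only [eL]; rw [ha]; congr 1; ring
    have hd1 : (p : ℤ) ≤ (g : ℤ) - a := by
      have : a + p ≤ g := by omega
      have : ((a + p : ℕ) : ℤ) ≤ g := by exact_mod_cast this
      push_cast at this; linarith
    have hd2 : (g : ℤ) - a ≤ (N : ℤ) - p := by
      have : g + p ≤ N + a := by omega
      have : ((g + p : ℕ) : ℤ) ≤ ((N + a : ℕ) : ℤ) := by exact_mod_cast this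
      push_cast at this; linarith
    have hf1 : ((fV u : ℕ) : ℤ) = (t u * W + g : ℤ) - N * ((t u * W + g : ℤ) / N) := by
      rw [e1]; push_cast
      have := Int.emod_def ((t u : ℤ) * W + g) N
      rw [this]
    have hf2 : ((eL u v : ℕ) : ℤ) = (t u * W + a : ℤ) - N * ((t u * W + a : ℤ) / N) := by
      rw [e2]; push_cast
      have := Int.emod_def ((t u : ℤ) * W + a) N
      rw [this]
    have hb1 : (fV u : ℤ) < N := by exact_mod_cast Nat.mod_lt _ hNpos
    have hb2 : (eL u v : ℤ) < N := by exact_mod_cast Nat.mod_lt _ hNpos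
    have hb3 : (0 : ℤ) ≤ fV u := by positivity
    have hb4 : (0 : ℤ) ≤ eL u v := by positivity
    set q1 := ((t u * W + g : ℤ) / N) with hq1
    set q2 := ((t u * W + a : ℤ) / N) with hq2
    have hdiff : (fV u : ℤ) - eL u v = ((g : ℤ) - a) - N * (q1 - q2) := by
      rw [hf1, hf2]; ring
    have hNz : (0 : ℤ) < N := by exact_mod_cast hNpos
    have hpz : (1 : ℤ) ≤ p := by exact_mod_cast hp
    have hk : q1 - q2 = 0 ∨ q1 - q2 = 1 := by
      have l1 : (N : ℤ) * (q1 - q2) < N * 2 := by linarith
      have l2 : (N : ℤ) * (-1) < N * (q1 - q2) := by linarith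
      have m1 := lt_of_mul_lt_mul_left l1 hNz.le
      have m2 := lt_of_mul_lt_mul_left l2 hNz.le
      omega
    rcases hk with hk | hk
    · rw [hk, mul_zero, sub_zero] at hdiff
      rw [hdiff, abs_of_nonneg (by linarith)]
      exact ⟨hd1, hd2⟩
    · rw [hk, mul_one] at hdiff
      rw [hdiff, abs_of_nonpos (by linarith)]
      constructor <;> linarith

end Pool.Agent.H238R2.HY
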