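import Mathlib
import Pool.Agent.H238R2.HY.Struct
import Pool.Agent.H238R2.HY.Part

set_option autoImplicit false

/-!
# Upper bound for the circular (p,1)-total number
-/

namespace Pool.Agent.H238R2.HY

open Finset

/-- the error term -/
noncomputable def err (D : ℕ) : ℝ := (D : ℝ) ^ (2 / 3 : ℝ) * Real.log D ^ (1 / 3 : ℝ)

theorem err_nonneg (D : ℕ) : 0 ≤ err D := by
  unfold err
  have : 0 ≤ Real.log D := Real.log_natCast_nonneg D
  positivity

theorem trivial_bound {V : Type} [Fintype V] (G : SimpleGraph V) [DecidableRel G.Adj] (p : ℕ)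
    (hp : 1 ≤ p) : CircLab G p (2 * G.maxDegree + 2 * p) := by
  have h := struct G 1 G.maxDegree p le_rfl hp (fun _ => 0) (fun _ => one_pos) (by
    intro v y
    refine (Finset.card_filter_le _ _).trans ?_
    rw [SimpleGraph.card_neighborFinset_eq_degree]
    exact G.degree_le_maxDegree v)
  have e : (1 + 1) * (G.maxDegree + 1) + 2 * p - 2 = 2 * G.maxDegree + 2 * p := by omega
  rwa [e] at h

theorem main {V : Type} [Fintype V] (G : SimpleGraph V) [DecidableRel G.Adj] (p : ℕ)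
    (hp : 1 ≤ p) :
    ∃ N : ℕ, (N : ℝ) ≤ G.maxDegree + 2 * p + 1 + 8 * err G.maxDegree ∧ CircLab G p N := by
  set D := G.maxDegree with hD
  have herr := err_nonneg D
  rcases Nat.lt_or_ge D 2 with hD2 | hD2
  · refine ⟨2 * D + 2 * p, ?_, trivial_bound G p hp⟩
    have : (D : ℝ) ≤ 1 := by exact_mod_cast Nat.lt_succ_iff.1 hD2
    push_cast
    linarith
  have hDr : (2 : ℝ) ≤ D := by exact_mod_cast hD2
  have hD0 : (0 : ℝ) < D := by linarith
  have hL2 : (0.69 : ℝ) ≤ Real.log D := by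
    have h1 : Real.log 2 ≤ Real.log D := Real.log_le_log (by norm_num) hDr
    have h2 := Real.log_two_gt_d9
    linarith
  set L := Real.log D with hL
  have hL0 : 0 < L := by linarith
  set y : ℝ := ((D : ℝ) / L) ^ (1 / 3 : ℝ) with hy
  have hy0 : 0 < y := by positivity
  have hy3 : y ^ 3 = D / L := by
    rw [hy, ← Real.rpow_natCast, ← Real.rpow_mul (by positivity)]
    norm_num
  have hyL : y ^ 3 * L = D := by rw [hy3]; field_simp
  set R := err D with hR
  have hRy : R * y = D := by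
    rw [hR, err, hy, Real.div_rpow hD0.le hL0.le]
    have h1 : (D : ℝ) ^ (2 / 3 : ℝ) * (D : ℝ) ^ (1 / 3 : ℝ) = D := by
      rw [← Real.rpow_add hD0]; norm_num
    have h2 : L ^ (1 / 3 : ℝ) ≠ 0 := by positivity
    calc (D : ℝ) ^ (2 / 3 : ℝ) * Real.log D ^ (1 / 3 : ℝ) *
        ((D : ℝ) ^ (1 / 3 : ℝ) / L ^ (1 / 3 : ℝ))
        = ((D : ℝ) ^ (2 / 3 : ℝ) * (D : ℝ) ^ (1 / 3 : ℝ)) * (L ^ (1 / 3 : ℝ) / L ^ (1 / 3 : ℝ)) := by
          rw [← hL]; ring
      _ = D := by rw [h1, div_self h2, mul_one]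
  rcases lt_or_ge y 3 with hy3' | hy3'
  · refine ⟨2 * D + 2 * p, ?_, trivial_bound G p hp⟩
    have : (D : ℝ) ≤ 3 * R := by nlinarith
    push_cast
    linarith
  -- main case
  set K := ⌊y⌋₊ with hK
  have hK1 : (K : ℝ) ≤ y := Nat.floor_le hy0.le
  have hK2 : y < K + 1 := Nat.lt_floor_add_one y
  have hKpos : (0 : ℝ) < K := by linarith
  have hK3 : 1 ≤ K := by
    have : (0 : ℝ) < K := hKpos
    exact_mod_cast this
  set x : ℝ := 3 / y with hx
  have hx0 : 0 ≤ x := by positivity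
  have hx1 : x ≤ 1 := by rw [hx, div_le_one hy0]; exact hy3'
  have hxD : x * D = 3 * R := by
    rw [hx, ← hRy]; field_simp
  have hR2 : R = y ^ 2 * L := by
    have : R * y = (y ^ 2 * L) * y := by rw [hRy, ← hyL]; ring
    exact mul_right_cancel₀ hy0.ne' this
  have hyR : y ≤ R := by
    rw [hR2]; nlinarith [mul_pos hy0 hy0, mul_pos hy0 hL0]
  have h4K : 4 * (K : ℝ) ≤ D := by
    have h1 : 4 * y ≤ D := by
      rw [← hyL]
      have h2 : (9 : ℝ) ≤ y ^ 2 := by nlinarith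
      have h3 : 9 * 0.69 ≤ y ^ 2 * L := by
        calc (9 : ℝ) * 0.69 ≤ y ^ 2 * 0.69 := by nlinarith
          _ ≤ y ^ 2 * L := mul_le_mul_of_nonneg_left hL2 (by positivity)
      have h5 : y ^ 3 * L = (y ^ 2 * L) * y := by ring
      rw [h5]
      nlinarith
    linarith
  have hexp : Real.exp (-(x ^ 2 * D / (3 * K))) ≤ ((D : ℝ) ^ 3)⁻¹ := by
    have h1 : 3 * L ≤ x ^ 2 * D / (3 * K) := by
      rw [le_div_iff₀ (by positivity)]
      have h2 : x ^ 2 * D = 9 * (y * L) := by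
        rw [hx, ← hyL]; field_simp; norm_num
      rw [h2]
      have : (K : ℝ) * L ≤ y * L := mul_le_mul_of_nonneg_right hK1 hL0.le
      nlinarith
    calc Real.exp (-(x ^ 2 * D / (3 * K))) ≤ Real.exp (-(3 * L)) :=
          Real.exp_le_exp.2 (by linarith)
      _ = ((D : ℝ) ^ 3)⁻¹ := by
          rw [Real.exp_neg, hL]
          congr 1
          rw [show (3 : ℝ) * Real.log D = ((3 : ℕ) : ℝ) * Real.log D by norm_num,
            ← Real.log_pow, Real.exp_log (by positivity)]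
  have h4 : 4 * (K * Real.exp (-(x ^ 2 * D / (3 * K)))) * (D * D : ℕ) ≤ 1 := by
    calc 4 * (K * Real.exp (-(x ^ 2 * D / (3 * K)))) * ((D * D : ℕ) : ℝ)
        ≤ 4 * (K * ((D : ℝ) ^ 3)⁻¹) * ((D * D : ℕ) : ℝ) := by gcongr
      _ = 4 * K / D := by push_cast; field_simp
      _ ≤ 1 := by rw [div_le_one hD0]; exact h4K
  obtain ⟨t, ht1, ht2⟩ := partition G K D hK3 (by omega) (fun v => G.degree_le_maxDegree v) x hx0
    hx1 h4
  have hC := struct G K ⌊(1 + x) * D / K⌋₊ p hK3 hp t ht1 ht2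
  refine ⟨_, ?_, hC⟩
  set w := ⌊(1 + x) * D / K⌋₊ with hw
  have hw1 : (w : ℝ) ≤ (1 + x) * D / K := Nat.floor_le (by positivity)
  have hsub : (((K + 1) * (w + 1) + 2 * p - 2 : ℕ) : ℝ) ≤ (K + 1) * (w + 1) + 2 * p - 2 := by
    rw [Nat.cast_sub (by omega)]; push_cast; linarith
  refine hsub.trans ?_
  have hxD2 : (1 + x) * D = D + 3 * R := by linarith
  have hdiv : (1 + x) * D / K ≤ 4 * R := by
    rw [div_le_iff₀ hKpos]
    have h5 : y / 2 ≤ K := by linarith
    have h6 : 4 * R * (y / 2) ≤ 4 * R * K := mul_le_mul_of_nonneg_left h5 (by linarith)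
    have h7 : (1 + x) * D ≤ 2 * D := mul_le_mul_of_nonneg_right (by linarith) hD0.le
    have h8 : 4 * R * (y / 2) = 2 * D := by rw [← hRy]; ring
    linarith
  have hKw : (K : ℝ) * w ≤ (1 + x) * D := by
    calc (K : ℝ) * w ≤ K * ((1 + x) * D / K) := mul_le_mul_of_nonneg_left hw1 hKpos.le
      _ = (1 + x) * D := by field_simp
  have hexpand : ((K : ℝ) + 1) * (w + 1) = K * w + w + K + 1 := by ring
  rw [hexpand]
  linarith

end Pool.Agent.H238R2.HY
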